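import Pool.Agent.Helper24.LD.Defs

set_option autoImplicit false

namespace Pool.Agent.Helper83.LD

open Finset Pool.Agent.Helper24.LD

theorem wt_eq {F : Type} [Field F] {n : ℕ} [DecidableEq F] (x : Fin n → F) :
    wt x = (univ.filter fun j => x j ≠ 0).card := by
  unfold wt
  rw [Nat.card_eq_fintype_card, Fintype.card_subtype]

theorem p1 : S_P1 := by
  classical
  intro w c n m d hTG F _
  obtain ⟨I, hw, hc, hd⟩ := hTG
  set H : Matrix (Fin m) (Fin n) F := Matrix.of fun i j => if j ∈ I i then (1 : F) else 0 with hH
  have hHne : ∀ i j, H i j ≠ 0 ↔ j ∈ I i := by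
    intro i j
    rw [hH, Matrix.of_apply]
    split_ifs with h <;> simp [h]
  refine ⟨LinearMap.ker H.mulVecLin, ⟨m, H, ?_, ?_, ?_⟩, ?_, ?_⟩
  · intro i
    rw [Nat.card_eq_fintype_card, Fintype.card_subtype]
    refine le_trans (le_of_eq ?_) (hw i)
    congr 1
    ext j
    rw [mem_filter]
    simp only [mem_univ, true_and]
    exact hHne i j
  · intro j
    rw [Nat.card_eq_fintype_card, Fintype.card_subtype]
    refine le_trans (le_of_eq ?_) (hc j)
    congr 1
    ext i
    unfold rowsOf
    rw [mem_filter, mem_filter]
    simp only [mem_univ, true_and]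
    exact hHne i j
  · intro x
    rw [LinearMap.mem_ker, Matrix.mulVecLin_apply]
  · have h1 := LinearMap.finrank_range_add_finrank_ker H.mulVecLin
    have h2 : Module.finrank F (LinearMap.range H.mulVecLin) ≤ m := by
      have := Submodule.finrank_le (LinearMap.range H.mulVecLin)
      simpa using this
    rw [Module.finrank_fin_fun] at h1
    have h3 : n ≤ m + Module.finrank F (LinearMap.ker H.mulVecLin) := by omega
    have h4 : (n : ℝ) ≤ m + Module.finrank F (LinearMap.ker H.mulVecLin) := by exact_mod_cast h3
    linarith
  · intro x hx hx0
    by_contra hcon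
    push Not at hcon
    rw [wt_eq x] at hcon
    set S : Finset (Fin n) := univ.filter fun j => x j ≠ 0 with hS
    have hSne : S.Nonempty := by
      by_contra he
      rw [not_nonempty_iff_eq_empty] at he
      apply hx0
      funext j
      by_contra hj
      have : j ∈ S := by
        rw [hS, mem_filter]
        exact ⟨mem_univ j, hj⟩
      rw [he] at this
      exact notMem_empty j this
    obtain ⟨i, hi⟩ := hd S hSne hcon
    obtain ⟨j0, hj0⟩ := card_eq_one.1 hi
    rw [LinearMap.mem_ker, Matrix.mulVecLin_apply] at hx
    have h1 : (H.mulVec x) i = 0 := by rw [hx]; rfl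
    have h2 : (H.mulVec x) i = ∑ j ∈ I i ∩ S, x j := by
      unfold Matrix.mulVec dotProduct
      have e : ∀ j, H i j * x j = if j ∈ I i ∩ S then x j else 0 := by
        intro j
        rw [hH, Matrix.of_apply]
        by_cases h1 : j ∈ I i
        · by_cases h2 : x j = 0
          · simp [h2]
          · have h3 : j ∈ S := by
              rw [hS, mem_filter]
              exact ⟨mem_univ j, h2⟩
            simp [h1, h3]
        · simp [h1]
      simp_rw [e]
      rw [sum_ite_mem, univ_inter]
    rw [h2, hj0, sum_singleton] at h1
    have h3 : j0 ∈ I i ∩ S := by rw [hj0]; exact mem_singleton_self j0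
    have h4 := (mem_inter.1 h3).2
    rw [hS, mem_filter] at h4
    exact h4.2 h1

theorem p2 : S_P2 := by
  classical
  intro w n F _ C hC
  obtain ⟨P, hPw, hPC⟩ := hC
  obtain ⟨b, hbP, hbs, hbl⟩ := exists_linearIndependent F P
  have hfin : Finite b := hbl.finite
  have hft : Fintype b := Fintype.ofFinite b
  set m := Fintype.card b with hm
  set e : b ≃ Fin m := Fintype.equivFin b with he
  set A : Matrix (Fin m) (Fin n) F := Matrix.of fun i j => (e.symm i : Fin n → F) j with hA
  have hArow : ∀ i, A i = (e.symm i : Fin n → F) := fun i => rfl
  have hker : ∀ x, x ∈ C ↔ A.mulVec x = 0 := by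
    intro x
    rw [hPC]
    constructor
    · intro h
      funext i
      exact h _ (hbP (e.symm i).2)
    · intro h
      -- the functionals vanishing at x form a submodule
      set S : Submodule F (Fin n → F) :=
        { carrier := {g | ∑ i, g i * x i = 0}
          add_mem' := by
            intro g g' hg hg'
            simp only [Set.mem_ofPred_eq, Pi.add_apply, add_mul, sum_add_distrib] at *
            rw [hg, hg', add_zero]
          zero_mem' := by simp
          smul_mem' := by
            intro a g hg
            simp only [Set.mem_ofPred_eq, Pi.smul_apply, smul_eq_mul, mul_assoc] at *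
            rw [← mul_sum, hg, mul_zero] } with hS
      have h1 : b ⊆ (S : Set (Fin n → F)) := by
        intro g hg
        have h2 : ∑ j, A (e ⟨g, hg⟩) j * x j = 0 := congrFun h (e ⟨g, hg⟩)
        have h3 : ∀ j, A (e ⟨g, hg⟩) j = g j := by
          intro j
          rw [hA, Matrix.of_apply, Equiv.symm_apply_apply]
        simp_rw [h3] at h2
        exact h2
      have h2 : Submodule.span F b ≤ S := Submodule.span_le.2 h1
      rw [hbs] at h2
      intro g hg
      exact h2 (Submodule.subset_span hg)
  have hCker : C = LinearMap.ker A.mulVecLin := by
    ext x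
    rw [LinearMap.mem_ker, Matrix.mulVecLin_apply]
    exact hker x
  refine ⟨m, fun i => univ.filter fun j => A i j ≠ 0, ?_, ?_, ?_⟩
  · have hli : LinearIndependent F A.row := by
      have h1 : A.row = (fun x : b => (x : Fin n → F)) ∘ e.symm := rfl
      rw [h1]
      exact hbl.comp _ e.symm.injective
    have hr : A.rank = m := by
      rw [hli.rank_matrix, Fintype.card_fin]
    have h1 := LinearMap.finrank_range_add_finrank_ker A.mulVecLin
    rw [Module.finrank_fin_fun, ← hCker] at h1
    have h2 : Module.finrank F (LinearMap.range A.mulVecLin) = m := hr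
    rw [h2] at h1
    exact h1
  · intro i
    have h1 := hPw _ (hbP (e.symm i).2)
    rw [wt_eq] at h1
    exact h1
  · intro T hT
    set I : Fin m → Finset (Fin n) := fun i => univ.filter fun j => A i j ≠ 0 with hI
    set U := touched I T with hU
    -- restriction to T and to the touched rows
    set L : (T → F) →ₗ[F] (U → F) :=
      { toFun := fun y i => ∑ j : T, A i j * y j
        map_add' := by
          intro y y'
          funext i
          simp only [Pi.add_apply, mul_add, sum_add_distrib]
        map_smul' := by
          intro a y
          funext i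
          simp only [Pi.smul_apply, smul_eq_mul, RingHom.id_apply, mul_sum]
          apply sum_congr rfl
          intro j _
          ring } with hL
    have hlt : Module.finrank F (U → F) < Module.finrank F (T → F) := by
      rw [Module.finrank_fintype_fun_eq_card, Module.finrank_fintype_fun_eq_card,
        Fintype.card_coe, Fintype.card_coe]
      exact hT
    have hne := LinearMap.ker_ne_bot_of_finrank_lt (f := L) hlt
    obtain ⟨y, hy, hy0⟩ := Submodule.exists_mem_ne_zero_of_ne_bot hne
    set x : Fin n → F := fun j => if h : j ∈ T then y ⟨j, h⟩ else 0 with hx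
    have hxT : ∀ j : T, x j = y j := by
      intro j
      rw [hx]
      simp only [j.2, dite_true]
    have hxn : ∀ j, j ∉ T → x j = 0 := by
      intro j hj
      rw [hx]
      simp only [hj, dite_false]
    have hsum : ∀ i, (A.mulVec x) i = ∑ j : T, A i j * y j := by
      intro i
      unfold Matrix.mulVec dotProduct
      rw [← sum_subset (subset_univ T)]
      · rw [← sum_coe_sort]
        apply sum_congr rfl
        intro j _
        rw [hxT]
      · intro j _ hj
        rw [hxn j hj, mul_zero]
    refine ⟨x, ?_, ?_, ?_⟩
    · rw [hker]
      funext i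
      rw [hsum]
      by_cases hi : i ∈ U
      · rw [LinearMap.mem_ker] at hy
        exact congrFun hy ⟨i, hi⟩
      · rw [Pi.zero_apply]
        apply sum_eq_zero
        intro j _
        have h1 : A i j = 0 := by
          by_contra h2
          apply hi
          rw [hU]
          unfold touched
          rw [mem_filter]
          refine ⟨mem_univ i, ⟨j, mem_inter.2 ⟨?_, j.2⟩⟩⟩
          rw [hI]
          simp only [mem_filter, mem_univ, true_and]
          exact h2
        rw [h1, zero_mul]
    · intro h0
      apply hy0
      funext j
      rw [← hxT, h0]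
      rfl
    · rw [wt_eq]
      apply card_le_card
      intro j hj
      rw [mem_filter] at hj
      by_contra h1
      exact hj.2 (hxn j h1)

end Pool.Agent.Helper83.LD
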